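import Pool.Agent.helper81.CW.Spec2

/-! # Project cw, module G5: volume of a star body, polar coordinates and Jensen -/

open MeasureTheory Set Metric Module
open scoped ENNReal

namespace Pool.Agent.helper81.CW

theorem G5_polar (n : ℕ) (h : E n → ℝ≥0∞) (hh : Measurable h) (hn : 0 < n) :
    ∫⁻ x, h x = ∫⁻ θ : sphere (0 : E n) 1, ∫⁻ r : Ioi (0 : ℝ), h ((r : ℝ) • (θ : E n))
      ∂(Measure.volumeIoiPow (n - 1)) ∂((volume : Measure (E n)).toSphere) := by
  have : Nonempty (Fin n) := ⟨⟨0, hn⟩⟩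
  have : Nontrivial (E n) := inferInstance
  have hd : finrank ℝ (E n) = n := by simp
  have h1 : ∫⁻ x, h x = ∫⁻ x : ({0}ᶜ : Set (E n)), h x
      ∂((volume : Measure (E n)).comap (↑)) := by
    rw [lintegral_subtype_comap (measurableSet_singleton _).compl, restrict_compl_singleton]
  have h2 := (volume : Measure (E n)).measurePreserving_homeomorphUnitSphereProd.lintegral_comp_emb
    (Homeomorph.measurableEmbedding _) (fun p => h ((p.2 : ℝ) • (p.1 : E n)))
  rw [h1]
  have h3 : ∀ x : ({0}ᶜ : Set (E n)),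
      (((homeomorphUnitSphereProd (E n) x).2 : ℝ)) • (((homeomorphUnitSphereProd (E n) x).1 : E n)) =
        (x : E n) := by
    intro x
    have hx : (x : E n) ≠ 0 := x.2
    have hx' : ‖(x : E n)‖ ≠ 0 := norm_ne_zero_iff.mpr hx
    rw [homeomorphUnitSphereProd_apply_snd_coe, homeomorphUnitSphereProd_apply_fst_coe, smul_smul,
      mul_inv_cancel₀ hx', one_smul]
  simp only [h3] at h2
  rw [h2, hd, lintegral_prod]
  fun_prop

theorem G5_gm (n : ℕ) (hn : 0 < n) (f : E n → ℝ) (hf : Measurable f) (h0 : ∀ x, 0 ≤ f x)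
    (hom : ∀ (x : E n) (t : ℝ), 0 < t → f (t • x) = f x) :
    ∫⁻ x, ENNReal.ofReal (f x) ∂(gm n) =
      (∫⁻ θ : sphere (0 : E n) 1, ENNReal.ofReal (f θ) ∂((volume : Measure (E n)).toSphere)) *
      ∫⁻ r : Ioi (0 : ℝ), ENNReal.ofReal (Real.exp (-(r : ℝ) ^ 2 / 2) / Real.sqrt (2 * Real.pi) ^ n)
        ∂(Measure.volumeIoiPow (n - 1)) := by
  rw [gm, lintegral_withDensity_eq_lintegral_mul _ (by fun_prop) (by fun_prop)]
  rw [G5_polar n _ (by
    apply Measurable.mul
    · fun_prop
    · fun_prop) hn]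
  rw [← lintegral_mul_const _ (by fun_prop)]
  apply lintegral_congr
  intro θ
  rw [← lintegral_const_mul' _ _ ENNReal.ofReal_ne_top]
  apply lintegral_congr
  intro r
  have hr : (0 : ℝ) < r := r.2
  have hθ : ‖(θ : E n)‖ = 1 := by simp
  simp only [Pi.mul_apply, hom _ _ hr, norm_smul, hθ, mul_one, Real.norm_eq_abs, sq_abs]
  rw [mul_comm]

theorem G5 (hG1 : G1_stmt) : G5_stmt := by
  intro n f hn hf h0 h1 hom
  have : Nonempty (Fin n) := ⟨⟨0, hn⟩⟩
  have : Nontrivial (E n) := inferInstance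
  have := (hG1 n).1
  set σ := (volume : Measure (E n)).toSphere with hσ
  set K := ∫⁻ r : Ioi (0 : ℝ), ENNReal.ofReal (Real.exp (-(r : ℝ) ^ 2 / 2) / Real.sqrt (2 * Real.pi) ^ n)
        ∂(Measure.volumeIoiPow (n - 1)) with hK
  have hd : finrank ℝ (E n) = n := by simp
  have hkap : 0 < kap n := by
    unfold kap
    have := Real.Gamma_pos_of_pos (show (0 : ℝ) < (n : ℝ) / 2 + 1 by positivity)
    have := Real.pi_pos
    positivity
  have huniv : σ univ = n * ENNReal.ofReal (kap n) := by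
    rw [hσ, Measure.toSphere_apply_univ, hd, EuclideanSpace.volume_ball]
    simp [kap]
  -- normalisation
  have hone : (n : ℝ≥0∞) * ENNReal.ofReal (kap n) * K = 1 := by
    have h := G5_gm n hn (fun _ => 1) measurable_const (by intro; norm_num) (by intros; rfl)
    simp only [ENNReal.ofReal_one, lintegral_const, measure_univ, mul_one, one_mul] at h
    rw [← huniv, ← h]
  -- Jensen
  have hint : Integrable f (gm n) := by
    refine Integrable.of_bound hf.aestronglyMeasurable 1 (Filter.Eventually.of_forall fun x => ?_)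
    rw [Real.norm_eq_abs, abs_of_nonneg (h0 x)]
    exact h1 x
  have hfn : Measurable fun x => f x ^ n := hf.pow_const n
  have hintn : Integrable (fun x => f x ^ n) (gm n) := by
    refine Integrable.of_bound hfn.aestronglyMeasurable 1 (Filter.Eventually.of_forall fun x => ?_)
    rw [Real.norm_eq_abs, abs_of_nonneg (pow_nonneg (h0 x) n)]
    exact pow_le_one₀ (h0 x) (h1 x)
  have hJ : (∫ x, f x ∂(gm n)) ^ n ≤ ∫ x, f x ^ n ∂(gm n) := by
    have := ConvexOn.map_integral_le (μ := gm n) (convexOn_pow n) (continuousOn_pow n)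
      isClosed_Ici (Filter.Eventually.of_forall h0) hint hintn
    simpa using this
  have hI : ENNReal.ofReal (∫ x, f x ^ n ∂(gm n)) =
      (∫⁻ θ : sphere (0 : E n) 1, ENNReal.ofReal (f θ ^ n) ∂σ) * K := by
    rw [ofReal_integral_eq_lintegral_ofReal hintn
      (Filter.Eventually.of_forall fun x => pow_nonneg (h0 x) n)]
    exact G5_gm n hn (fun x => f x ^ n) hfn (fun x => pow_nonneg (h0 x) n)
      (fun x t ht => by simp only [hom x t ht])
  -- the volume
  have hmeas : MeasurableSet {x : E n | ‖x‖ ≤ f x} := measurableSet_le measurable_norm hf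
  have hvol : ∫⁻ θ : sphere (0 : E n) 1, ENNReal.ofReal (f θ ^ n) * (n : ℝ≥0∞)⁻¹ ∂σ ≤
      volume {x : E n | ‖x‖ ≤ f x} := by
    rw [← lintegral_indicator_one hmeas, G5_polar n _ (measurable_one.indicator hmeas) hn]
    apply lintegral_mono
    intro θ
    have hθ : ‖(θ : E n)‖ = 1 := by simp
    have hr : ∀ r : Ioi (0 : ℝ), ({x : E n | ‖x‖ ≤ f x}).indicator (1 : E n → ℝ≥0∞)
        ((r : ℝ) • (θ : E n)) = ({r : Ioi (0 : ℝ) | (r : ℝ) ≤ f θ}).indicator 1 r := by
      intro r
      have hr : (0 : ℝ) < r := r.2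
      have : ((r : ℝ) • (θ : E n)) ∈ {x : E n | ‖x‖ ≤ f x} ↔ r ∈ {r : Ioi (0 : ℝ) | (r : ℝ) ≤ f θ} := by
        simp only [mem_ofPred_eq, hom _ _ hr, norm_smul, hθ, mul_one, Real.norm_eq_abs,
          abs_of_pos hr]
      by_cases hc : r ∈ {r : Ioi (0 : ℝ) | (r : ℝ) ≤ f θ}
      · rw [indicator_of_mem hc, indicator_of_mem (this.mpr hc)]; rfl
      · rw [indicator_of_notMem hc, indicator_of_notMem (fun h => hc (this.mp h))]
    simp only [hr]
    rw [lintegral_indicator_one (measurableSet_le (by fun_prop) measurable_const)]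
    rcases (h0 (θ : E n)).eq_or_lt with hz | hp
    · simp [← hz, hn.ne']
    · have hsub : Iio (⟨f θ, hp⟩ : Ioi (0 : ℝ)) ⊆ {r : Ioi (0 : ℝ) | (r : ℝ) ≤ f θ} := by
        intro r hr'
        exact le_of_lt (show (r : ℝ) < f θ from hr')
      refine le_trans ?_ (measure_mono hsub)
      rw [Measure.volumeIoiPow_apply_Iio]
      have e1 : n - 1 + 1 = n := Nat.sub_add_cancel hn
      have e2 : ((n - 1 : ℕ) : ℝ) + 1 = n := by exact_mod_cast e1
      rw [e1, e2, ENNReal.ofReal_div_of_pos (by exact_mod_cast hn), ENNReal.ofReal_natCast,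
        ENNReal.div_eq_inv_mul, mul_comm]
  refine le_trans ?_ hvol
  rw [lintegral_mul_const' _ _ (by simp [hn.ne'])]
  calc ENNReal.ofReal (kap n * (∫ x, f x ∂(gm n)) ^ n)
      ≤ ENNReal.ofReal (kap n * ∫ x, f x ^ n ∂(gm n)) := by
        apply ENNReal.ofReal_le_ofReal
        exact mul_le_mul_of_nonneg_left hJ hkap.le
    _ = ENNReal.ofReal (kap n) * ((∫⁻ θ : sphere (0 : E n) 1, ENNReal.ofReal (f θ ^ n) ∂σ) * K) := by
        rw [ENNReal.ofReal_mul hkap.le, hI]
    _ = (∫⁻ θ : sphere (0 : E n) 1, ENNReal.ofReal (f θ ^ n) ∂σ) * (ENNReal.ofReal (kap n) * K) := by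
        ring
    _ ≤ _ := by
        gcongr
        apply le_of_eq
        apply ENNReal.eq_inv_of_mul_eq_one_left
        rw [← hone]
        ring

end Pool.Agent.helper81.CW
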